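import Pool.Agent.RSG.Defs
import Pool.Agent.NHT.Hyp

/-!
# NHV/Defs: twin surgery in a manifold which contains `N × S¹`

* `ProdEmb IW ι`: `ι (x, t)`, of period `1` in `t`, is an open embedding of `N × S¹` in the manifold `W`.
* `OnTorus ι κ w`: `w` is a point of the torus `K × S¹ ⊆ W`, `K` the knot `κ (l, 0)`.
* `TwinIn IW ι κ n j X`, `IsRollGluckIn`: `X` is the union of `W - K × S¹` and of a twin.
* `Reflects IW ι`: a diffeomorphism of `W` acts on `N × S¹` as `(x, t) ↦ (x, -t)`.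
-/

open scoped Manifold ContDiff
open Pool.Agent.RSG (E3 E4 S4 ex c1 c2 ht fh)

namespace Pool.Agent.NHV

variable {N : Type*} [TopologicalSpace N] [ChartedSpace E3 N]
  {EW : Type*} [NormedAddCommGroup EW] [NormedSpace ℝ EW] {HW : Type*} [TopologicalSpace HW]
  (IW : ModelWithCorners ℝ EW HW) {W : Type*} [TopologicalSpace W] [ChartedSpace HW W]

/-- `ι (x, t)`, of period `1` in `t`, is an open embedding of `N × S¹`, `S¹ = ℝ / ℤ`, in the manifold `W`. -/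
structure ProdEmb (ι : N × ℝ → W) : Prop where
  per : ∀ (x : N) (t : ℝ), ι (x, t + 1) = ι (x, t)
  loc : ∀ (x : N) (t : ℝ), IsLocalDiffeomorphAt ((𝓡 3).prod 𝓘(ℝ, ℝ)) IW ∞ ι (x, t)
  inj : ∀ (x x' : N) (t t' : ℝ), ι (x, t) = ι (x', t') → x = x' ∧ ∃ m : ℤ, t' = t + m

/-- `w` is a point of the torus `ι (K × S¹)`, where `K` is the knot `κ (l, 0)`. -/
def OnTorus {N W : Type*} (ι : N × ℝ → W) (κ : ℝ × ℂ → N) (w : W) : Prop := ∃ l t : ℝ, w = ι (κ (l, 0), t)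

/-- `X` is the union of `W - T`, where `T` is the torus `ι (K × S¹)` (map `A`), and of the (open) twin `{fh ≠ 0}` (map `Q`),
glued as follows.  On `W` near `T` we have the angles `m, l, t`: the point `ι (κ (l, r ex m), t)`, `0 < r < 1`.  It is
identified with the point `z` of the twin with `2 |c1 z| |c2 z| = r`, `arg (c1 z) = m + (1 - j) t`, `arg (c2 z) = m - j t`
and `arg (fh z) = l - n t`.  So the meridians of the two spheres `c1 = 0`, `c2 = 0` of the twin are `m - e` and `e`, up to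
sign and order, where `e = t + n l + j m`. -/
structure TwinIn (ι : N × ℝ → W) (κ : ℝ × ℂ → N) (n j : ℤ) (X : Type*) [TopologicalSpace X] [ChartedSpace E4 X] where
  A : W → X
  Q : S4 → X
  A_loc : ∀ w, ¬ OnTorus ι κ w → IsLocalDiffeomorphAt IW (𝓡 4) ∞ A w
  A_inj : ∀ w w', ¬ OnTorus ι κ w → ¬ OnTorus ι κ w' → A w = A w' → w = w'
  Q_loc : ∀ z : S4, fh z ≠ 0 → IsLocalDiffeomorphAt (𝓡 4) (𝓡 4) ∞ Q z
  Q_inj : ∀ z z' : S4, fh z ≠ 0 → fh z' ≠ 0 → Q z = Q z' → z = z'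
  glue : ∀ (z : S4) (l m t : ℝ), fh z ≠ 0 → c1 z ≠ 0 → c2 z ≠ 0 →
    c1 z = ‖c1 z‖ * ex (m + (1 - j) * t) → c2 z = ‖c2 z‖ * ex (m - j * t) →
    fh z = ‖fh z‖ * ex (l - n * t) → Q z = A (ι (κ (l, (2 * ‖c1 z‖ * ‖c2 z‖ : ℝ) * ex m), t))
  disj : ∀ (z : S4) (w : W), fh z ≠ 0 → c1 z = 0 ∨ c2 z = 0 → ¬ OnTorus ι κ w → Q z ≠ A w
  cover : ∀ q : X, (∃ w, ¬ OnTorus ι κ w ∧ q = A w) ∨ ∃ z : S4, fh z ≠ 0 ∧ q = Q z

/-- `X` is the roll-Gluck manifold of `W`, `ι`, `κ`, `n`, `j`. -/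
def IsRollGluckIn (ι : N × ℝ → W) (κ : ℝ × ℂ → N) (n j : ℤ) (X : Type*) [TopologicalSpace X] [ChartedSpace E4 X] :
    Prop := Nonempty (TwinIn IW ι κ n j X)

/-- A diffeomorphism of `W` acts on `N × S¹` as the reflection `(x, t) ↦ (x, -t)`. -/
def Reflects (ι : N × ℝ → W) : Prop :=
  ∃ Φ : Equiv.Perm W, (∀ w, IsLocalDiffeomorphAt IW IW ∞ Φ w) ∧ ∀ (x : N) (t : ℝ), Φ (ι (x, t)) = ι (x, -t)

end Pool.Agent.NHV
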