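import Pool.Agent.NHV.Defs
import Pool.Agent.NHW.End
import Pool.Agent.NHT.Main

/-!
# NHV/Main: the homotopy theorem in a manifold which contains `N × S¹`
-/

open scoped Manifold ContDiff Topology
open Set Filter
open Pool.Agent.RSG (E3 E4 S4 ex c1 c2 ht fh Thick)
open Pool.Agent.RBM (ThickT TwinP OnT)
open Pool.Agent.RBN (IN circ prd circ_eq circ_ld circ_surj Cir_arg)
open Pool.Agent.NHP (E core LEqN)
open Pool.Agent.NHT (FreeHomotopic GenH1)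
open Pool.Agent.NHW (OEmb HmC Refl)

namespace Pool.Agent.NHV

universe v

section
variable {N : Type*} [TopologicalSpace N] [ChartedSpace E3 N]
  {EW : Type*} [NormedAddCommGroup EW] [NormedSpace ℝ EW] {HW : Type*} [TopologicalSpace HW]
  {IW : ModelWithCorners ℝ EW HW} {W : Type*} [TopologicalSpace W] [ChartedSpace HW W]

/-- the embedding of `N × Circle` -/
noncomputable def cI {N W : Type*} (ι : N × ℝ → W) (p : N × Circle) : W := ι (p.1, Complex.arg (p.2 : ℂ) / (2 * Real.pi))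

theorem ProdEmb.int {ι : N × ℝ → W} (h : ProdEmb IW ι) (x : N) (t : ℝ) (m : ℤ) : ι (x, t + m) = ι (x, t) := by
  have h1 : Function.Periodic (fun t => ι (x, t)) 1 := fun t => h.per x t
  have h2 := h1.int_mul m t
  rw [mul_one] at h2
  exact h2

theorem cI_circ {ι : N × ℝ → W} (h : ProdEmb IW ι) (x : N) (t : ℝ) : cI ι (x, circ t) = ι (x, t) := by
  show ι (x, Complex.arg ((circ t : Circle) : ℂ) / (2 * Real.pi)) = ι (x, t)
  obtain ⟨m, hm⟩ := circ_eq.1 (Cir_arg (circ t))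
  rw [hm, h.int]

theorem cI_oemb {ι : N × ℝ → W} (h : ProdEmb IW ι) : OEmb IW IN (cI ι) where
  loc := by
    rintro ⟨x, u⟩
    obtain ⟨t, rfl⟩ := circ_surj u
    have h1 : IsLocalDiffeomorphAt ((𝓡 3).prod 𝓘(ℝ, ℝ)) IN ∞ (Prod.map (id : N → N) circ) (x, t) :=
      RSG.ld_prodMap (CSG.ld_id x) (circ_ld t)
    refine CSG.ld_of_comp_left (f := Prod.map (id : N → N) circ) (x := (x, t)) ?_ h1
    have e : (cI ι : N × Circle → W) ∘ Prod.map (id : N → N) circ = ι := by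
      funext p
      exact cI_circ h p.1 p.2
    rw [e]
    exact h.loc x t
  inj := by
    rintro ⟨x, u⟩ ⟨x', u'⟩ he
    obtain ⟨t, rfl⟩ := circ_surj u
    obtain ⟨t', rfl⟩ := circ_surj u'
    rw [cI_circ h, cI_circ h] at he
    obtain ⟨h1, h2⟩ := h.inj _ _ _ _ he
    rw [h1, circ_eq.2 h2]

theorem cI_prd {ι : N × ℝ → W} (h : ProdEmb IW ι) (κ : ℝ × ℂ → N) :
    (cI ι ∘ prd κ) = fun q => ι (κ (q.1, q.2.1), q.2.2) := by
  funext q
  exact cI_circ h _ _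

theorem on_iff {ι : N × ℝ → W} {κ : ℝ × ℂ → N} {w : W} :
    OnTorus ι κ w ↔ OnT (fun q : ℝ × ℂ × ℝ => ι (κ (q.1, q.2.1), q.2.2)) w := Iff.rfl

/-- the dictionary -/
theorem dicV {ι : N × ℝ → W} (h : ProdEmb IW ι) {κ : ℝ × ℂ → N} {n j : ℤ} {X : Type v} [TopologicalSpace X]
    [ChartedSpace E4 X] : IsRollGluckIn IW ι κ n j X ↔ Nonempty (TwinP IW (cI ι ∘ prd κ) n j X) := by
  rw [cI_prd h]
  constructor
  · rintro ⟨D⟩
    exact ⟨⟨D.A, D.Q, D.A_loc, D.A_inj, D.Q_loc, D.Q_inj, D.glue, D.disj, D.cover⟩⟩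
  · rintro ⟨D⟩
    exact ⟨⟨D.A, D.Q, D.A_loc, D.A_inj, D.Q_loc, D.Q_inj, D.glue, D.disj, D.cover⟩⟩

theorem refl_of {ι : N × ℝ → W} (h : ProdEmb IW ι) (hR : Reflects IW ι) : Refl IW (cI ι) := by
  obtain ⟨Φ, h1, h2⟩ := hR
  refine ⟨Φ, h1, fun x u => ?_⟩
  obtain ⟨t, rfl⟩ := circ_surj u
  rw [← NHB.circ_neg, cI_circ h, cI_circ h, h2]

/-- **The homotopy theorem in `W`.** -/
theorem homotopy_in [T2Space N] [IsManifold (𝓡 3) ∞ N] [ConnectedSpace N] [T2Space W] {ι : N × ℝ → W} (hι : ProdEmb IW ι)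
    {κ κ' : ℝ × ℂ → N} (hκ : Thick κ) (hκ' : Thick κ') (hF : FreeHomotopic κ κ') (hg : GenH1 κ) {n : ℤ}
    (hn : n = 0 ∨ (¬ FreeHomotopic κ fun q => κ (-q.1, q.2)) ∨ Reflects IW ι) (j j' : ℤ) {X : Type v}
    [TopologicalSpace X] [ChartedSpace E4 X] [T2Space X] :
    IsRollGluckIn IW ι κ n j X ↔ IsRollGluckIn IW ι κ' n j' X := by
  have hO := NHT.exists_orn hκ hg
  have hL := NHT.core_leq hκ hκ' hF hg
  have hh : HmC (fun l => κ (l, 0)) fun l => κ' (l, 0) := hF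
  have hn1 : n = 0 ∨ (¬ HmC (fun l => κ (l, 0)) fun l => κ (-l, 0)) ∨ Refl IW (cI ι) :=
    hn.imp id (Or.imp id (refl_of hι))
  have hn2 : n = 0 ∨ (¬ HmC (fun l => κ' (l, 0)) fun l => κ' (-l, 0)) ∨ Refl IW (cI ι) :=
    hn1.imp id (Or.imp (fun h h' => h ((hh.trans h').trans hh.rev.symm)) id)
  rw [dicV hι, dicV hι]
  exact ⟨fun h => NHW.bridge_twoW (cI_oemb hι) hO hκ hκ' hL hh hn1 h j',
    fun h => NHW.bridge_twoW (cI_oemb hι) hO hκ' hκ hL.symm hh.symm hn2 h j⟩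

end

end Pool.Agent.NHV
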